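import Pool.Agent.N625.PT.C
import Pool.Agent.N625.DY.L

/-!
# Prime pairs in progressions, uniformly in the modulus, for differences whose blocks of digits can be exchanged

The random integer `v` has `k` digits in base `b` and ANY distribution for which after every beginning of the word of
the digits two blocks of `L` digits can be exchanged (see `Exchangeable`). Examples: the uniform distribution on the
integers with `k` digits whose sum of digits is a prescribed number between `δ k` and `(b - 1 - δ) k` (`L = 2`, the blocks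
`01` and `10`); the words of an irreducible aperiodic subshift of finite type; Markov chains and Gibbs measures.

Definition used (in `Pool.Agent.H560R3.GB`): `C₂`: the twin prime constant `∏_{p > 2} (1 - 1 / (p - 1) ^ 2)` (the infimum
of the partial products).

Method: if blocks of digits can be exchanged then the exponential sum is small at all the frequencies with many places
not close to rational numbers with a small denominator (starting files, `Pool.Agent.N625.PT`, helper625). The passage from such exponential sums to prime pairs is from the starting files (`Pool.Agent.TH872.Mir.dd_law`,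
`Pool.Agent.W93.PP`, `Pool.Agent.N625.DY.L`). New here: the combination.
-/

set_option autoImplicit false

namespace Pool.Agent.Results.MP_92ef0c_nt.ExchangeableDifferences

open Finset Pool.Agent.H560R3.GB

/-- The probability, for the distribution `μ` on the words of `k` digits (the integers `v < b ^ k`, written with `k` digits
in base `b`), that the word begins with the `i` digits of `u < b ^ i`. -/
noncomputable def begins (b k : ℕ) (μ : ℕ → ℝ) (i u : ℕ) : ℝ := ∑ w ∈ range (b ^ (k - i)), μ (u * b ^ (k - i) + w)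

/-- `p` is a probability on the words of `k` digits in base `b`, read as integers `v < b ^ k`. There is another probability
`μ` with `p ≤ k ^ T μ` such that after every beginning `u` two different blocks `a`, `a'` of `L` digits can be exchanged:
`p (u a w) = r p (u a' w)` for all endings `w`, with a factor `r` between `η` and `1 / η` which does not depend on `w`; and
given the beginning `u`, each of the two blocks comes next with a probability of at least `η` in the distribution `μ`.
(For `T = 0` one can take `μ = p`. For the uniform distribution on a set of words `r` is `1`.) -/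
structure Exchangeable (b L : ℕ) (η : ℝ) (T k : ℕ) (p : ℕ → ℝ) : Prop where
  nonneg : ∀ v, 0 ≤ p v
  sum : ∑ v ∈ range (b ^ k), p v = 1
  dominated : ∃ μ : ℕ → ℝ, (∀ v, 0 ≤ μ v) ∧ ∑ v ∈ range (b ^ k), μ v = 1 ∧ (∀ v < b ^ k, p v ≤ (k : ℝ) ^ T * μ v) ∧
    ∀ i u : ℕ, i + L ≤ k → u < b ^ i → ∃ (a a' : ℕ) (r : ℝ), a < a' ∧ a' < b ^ L ∧ η ≤ r ∧ η * r ≤ 1 ∧
      (∀ w < b ^ (k - (i + L)), p ((b ^ L * u + a) * b ^ (k - (i + L)) + w) = r * p ((b ^ L * u + a') * b ^ (k - (i + L)) + w)) ∧
      η * begins b k μ i u ≤ begins b k μ (i + L) (b ^ L * u + a) ∧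
      η * begins b k μ i u ≤ begins b k μ (i + L) (b ^ L * u + a')

/-- `π_d(x; a, q)`: the number of primes `p ≤ x` with `p + d ≤ x` prime and `p ≡ a (mod q)`. (For even
`d > 0` such a prime `p` is automatically odd.) -/
noncomputable def pairs (d : ℕ) (x : ℝ) (a q : ℕ) : ℕ :=
  ((range (⌊x⌋₊ + 1)).filter (fun p => p.Prime ∧ (p + d).Prime ∧ (p : ℝ) + d ≤ x ∧ p ≡ a [MOD q])).card

/-- The main term `M_d(x; q)` of the problem. -/
noncomputable def main (d : ℕ) (x : ℝ) (q : ℕ) : ℝ :=
  2 / (((range q).filter (fun α => Nat.Coprime α q ∧ Nat.Coprime (α + d) q)).card : ℝ) *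
    (∏ p ∈ d.primeFactors.filter (fun p => 2 < p), ((p : ℝ) - 1) / ((p : ℝ) - 2)) * C₂ *
    ∫ t in (2 : ℝ)..x, 1 / Real.log t ^ 2

/-- The estimate of the problem with the bound `X / (log X) ^ C`, for all `x ≤ X`, all moduli
`q ≤ (log X) ^ A₂`, all admissible classes `a`, and all even `d` with `D ≤ d ≤ D + (log X) ^ A₁`. -/
def Holds (A₁ A₂ C X D : ℕ) : Prop :=
  ∀ d q a : ℕ, D ≤ d → (d : ℝ) ≤ D + Real.log X ^ A₁ → 0 < d → Even d → 1 ≤ q → (q : ℝ) ≤ Real.log X ^ A₂ →
    Nat.Coprime a q → Nat.Coprime (a + d) q → ∀ x : ℝ, 2 ≤ x → x ≤ X →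
    |(pairs d x a q : ℝ) - main d x q| ≤ X / Real.log X ^ C

lemma begins_sum (b k : ℕ) (μ : ℕ → ℝ) (i u : ℕ) (hi : i < k) :
    ∑ a ∈ range b, begins b k μ (i + 1) (b * u + a) = begins b k μ i u := by
  unfold begins
  obtain ⟨n, hn⟩ : ∃ n, k - i = n + 1 := ⟨k - i - 1, by omega⟩
  have h1 : k - (i + 1) = n := by omega
  rw [h1, hn, pow_succ, mul_comm (b ^ n) b, Pool.Agent.N625.PT.sum_blocks b (b ^ n)]
  apply sum_congr rfl
  intro a _
  apply sum_congr rfl
  intro w _
  congr 1
  ring

lemma flex_of {b L T k : ℕ} {η : ℝ} {p : ℕ → ℝ} (hp : Exchangeable b L η T k p) : Pool.Agent.N625.PT.Flex b L η T k p := by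
  obtain ⟨h0, h1, μ, m0, m1, m2, m3⟩ := hp
  have hT : (0 : ℝ) ≤ (k : ℝ) ^ T := by positivity
  have hb0 : ∀ i u, 0 ≤ begins b k μ i u := fun i u => sum_nonneg fun w _ => m0 _
  refine ⟨h0, h1, fun i u => (k : ℝ) ^ T * begins b k μ i u, fun i u => mul_nonneg hT (hb0 i u), ?_, ?_, ?_, ?_⟩
  · intro v hv
    refine (m2 v hv).trans (le_of_eq ?_)
    unfold begins
    simp
  · intro i hi u _
    simp only
    rw [← mul_sum, begins_sum b k μ i u hi]
  · simp only
    have : begins b k μ 0 0 = 1 := by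
      unfold begins
      simpa using m1
    rw [this, mul_one]
  · intro i u hi hu
    obtain ⟨a, a', r, q1, q2, q3, q4, q5, q6, q7⟩ := m3 i u hi hu
    refine ⟨a, a', r, q1, q2, q3, q4, q5, ?_, ?_⟩
    · simp only
      calc η * ((k : ℝ) ^ T * begins b k μ i u) = (k : ℝ) ^ T * (η * begins b k μ i u) := by ring
        _ ≤ _ := mul_le_mul_of_nonneg_left q6 hT
    · simp only
      calc η * ((k : ℝ) ^ T * begins b k μ i u) = (k : ℝ) ^ T * (η * begins b k μ i u) := by ring
        _ ≤ _ := mul_le_mul_of_nonneg_left q7 hT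

lemma holds_of (A B C X D : ℕ) (hgood : Pool.Agent.W93.PP.GoodD A B C X D) : Holds A B C X D := by
  intro d q a hd1 hd2 hd0 hdev hq1 hq2 ha had x hx2 hxX
  obtain ⟨δ, hδ⟩ := Nat.exists_eq_add_of_le hd1
  subst hδ
  have hδL : (δ : ℝ) ≤ Real.log X ^ A := by
    push_cast at hd2 ⊢
    linarith
  have h2 := hgood δ q a hδL hq1 hq2 ha had hdev.two_dvd hd0.ne' x hx2 hxX
  have e1 : main (D + δ) x q =
      sing (D + δ) / Pool.Agent.W93.PP.Cnt q (D + δ) * Pool.Agent.W93.PP.Li2 x := by
    unfold main sing Pool.Agent.W93.PP.Cnt Pool.Agent.W93.PP.Li2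
    ring
  rw [e1]
  exact h2

open Classical in
/-- Let `b ≥ 2`, `L ≥ 1`, `0 < η ≤ 1`, `T`, `κ ≠ 0`, `B`, `A₁`, `A₂`, `C`, `U` and `W` be fixed and let `k` be large. Let `X` be
a number with `b ^ k (log X) ^ (C + 6) ≤ X ≤ b ^ k (log X) ^ W`, let `c` be an arbitrary integer with `|c| ≤ B b ^ k`, and let
`v < b ^ k` be a random integer with an exchangeable distribution `p` (with the parameters `L`, `η`, `T`). Then, with
probability at least `1 - 1 / k ^ U`, the following is true: if
`D = c + κ v` is positive, then for all even `d` with `D ≤ d ≤ D + (log X) ^ A₁`, all `x ≤ X`, all `q ≤ (log X) ^ A₂` and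
all `a` with `(a, q) = (a + d, q) = 1`, `|π_d(x; a, q) - M_d(x; q)| ≤ X / (log X) ^ C`.
(The sum in the statement is the probability of the contrary.) -/
theorem result (b L : ℕ) (hb : 2 ≤ b) (hL : 1 ≤ L) (η : ℝ) (hη0 : 0 < η) (hη1 : η ≤ 1) (T : ℕ) (κ : ℤ) (hκ : κ ≠ 0)
    (B A₁ A₂ C U W : ℕ) :
    ∃ k₀ : ℕ, ∀ k : ℕ, k₀ ≤ k →
      ∀ X : ℕ, b ^ k ≤ X → (b : ℝ) ^ k * Real.log X ^ (C + 6) ≤ X → (X : ℝ) ≤ (b : ℝ) ^ k * Real.log X ^ W →
      ∀ c : ℤ, |c| ≤ B * (b : ℤ) ^ k → ∀ p : ℕ → ℝ, Exchangeable b L η T k p →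
      ∑ v ∈ range (b ^ k), (if (0 < c + κ * (v : ℕ) → Holds A₁ A₂ C X (c + κ * (v : ℕ)).toNat) then 0 else p v) ≤
        1 / (k : ℝ) ^ U := by
  obtain ⟨k₀, h0⟩ := Pool.Agent.N625.DY.cls_pairs (Pool.Agent.N625.PT.flex_clsV b L hb hL η hη0 hη1 T κ hκ) B U A₁ A₂ C W
  refine ⟨k₀, fun k hk X hX0 hX1 hX2 c hc p hp => ?_⟩
  obtain ⟨Q, hQ⟩ : ∃ Q : ℤ → Prop, Q = fun y => (0 < y → Holds A₁ A₂ C X y.toNat) := ⟨_, rfl⟩
  have h1 := h0 k hk X hX0 hX1 hX2 p (flex_of hp) c hc Q (fun y hy => by
      rw [hQ] at hy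
      push Not at hy
      exact ⟨hy.1, fun hG => hy.2 (holds_of _ _ _ _ _ hG)⟩)
  rw [hQ] at h1
  refine le_trans (le_of_eq ?_) h1
  apply sum_congr rfl
  intro v _
  congr

end Pool.Agent.Results.MP_92ef0c_nt.ExchangeableDifferences
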