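import Pool.Agent.Run7.h710.TR.Cnt

/-!
# Prime pairs in progressions, uniformly in the modulus, for the differences written by a transducer

The differences are all the even integers in an interval which begins at `c + κ T(v)`, for almost all integers `v < a ^ k`,
where the transducer `T` reads the digits of `v` in base `a` and writes the digits of `T(v)` in base `b` (definitions in
`Pool.Agent.Run7.h710.TR.Defs`).

Definition used (in `Pool.Agent.H560R3.GB`): `C₂`: the twin prime constant `∏_{p > 2} (1 - 1 / (p - 1) ^ 2)` (the infimum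
of the partial products).

Method: if two words of `L` digits lead from the same state to the same state and different words are written, then the two
parts of the exponential sum over the integers `T(v)` which belong to these words cancel in part at the places where the
frequency has a digit which is not extremal. The passage from such exponential sums to prime pairs is from the starting files
(`Pool.Agent.TH872.Mir.dd_law`, `Pool.Agent.W93.PP`) and from `Pool.Agent.N625.DY.L` (helper625).

Examples: the bitwise conjunction or disjunction of `v` and `m v` (the carries are the states); the integer whose digit `i`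
is `f(x_i, x_{i+1}, …, x_{i+r})`, where `x_i` are the digits of `v` and `f` is not constant (one-sided cellular automata).
-/

set_option autoImplicit false

namespace Pool.Agent.Results.MP_92ef0c_nt.TransducerDifferences

open Finset Pool.Agent.H560R3.GB Pool.Agent.Run7.h710.TR

/-- `π_d(x; r, q)`: the number of primes `p ≤ x` with `p + d ≤ x` prime and `p ≡ r (mod q)`. (For even
`d > 0` such a prime `p` is automatically odd.) -/
noncomputable def pairs (d : ℕ) (x : ℝ) (r q : ℕ) : ℕ :=
  ((range (⌊x⌋₊ + 1)).filter (fun p => p.Prime ∧ (p + d).Prime ∧ (p : ℝ) + d ≤ x ∧ p ≡ r [MOD q])).card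

/-- The main term `M_d(x; q)` of the problem. -/
noncomputable def main (d : ℕ) (x : ℝ) (q : ℕ) : ℝ :=
  2 / (((range q).filter (fun α => Nat.Coprime α q ∧ Nat.Coprime (α + d) q)).card : ℝ) *
    (∏ p ∈ d.primeFactors.filter (fun p => 2 < p), ((p : ℝ) - 1) / ((p : ℝ) - 2)) * C₂ *
    ∫ t in (2 : ℝ)..x, 1 / Real.log t ^ 2

/-- The estimate of the problem with the bound `X / (log X) ^ C`, for all `x ≤ X`, all moduli
`q ≤ (log X) ^ A₂`, all admissible classes `r`, and all even `d` with `D ≤ d ≤ D + (log X) ^ A₁`. -/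
def Holds (A₁ A₂ C X D : ℕ) : Prop :=
  ∀ d q r : ℕ, D ≤ d → (d : ℝ) ≤ D + Real.log X ^ A₁ → 0 < d → Even d → 1 ≤ q → (q : ℝ) ≤ Real.log X ^ A₂ →
    Nat.Coprime r q → Nat.Coprime (r + d) q → ∀ x : ℝ, 2 ≤ x → x ≤ X →
    |(pairs d x r q : ℝ) - main d x q| ≤ X / Real.log X ^ C

lemma holds_of (A B C X D : ℕ) (hgood : Pool.Agent.W93.PP.GoodD A B C X D) : Holds A B C X D := by
  intro d q a hd1 hd2 hd0 hdev hq1 hq2 ha had x hx2 hxX
  obtain ⟨δ, hδ⟩ := Nat.exists_eq_add_of_le hd1
  subst hδ
  have hδL : (δ : ℝ) ≤ Real.log X ^ A := by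
    push_cast at hd2 ⊢
    linarith
  have h2 := hgood δ q a hδL hq1 hq2 ha had hdev.two_dvd hd0.ne' x hx2 hxX
  have e1 : main (D + δ) x q =
      sing (D + δ) / Pool.Agent.W93.PP.Cnt q (D + δ) * Pool.Agent.W93.PP.Li2 x := by
    unfold main sing Pool.Agent.W93.PP.Cnt Pool.Agent.W93.PP.Li2
    ring
  rw [e1]
  exact h2

open Classical in
/-- Let `a`, `b ≥ 2`, `L ≥ 1`, `κ ≠ 0`, `B`, `A₁`, `A₂`, `C`, `U` and `W` be fixed, and let `k` be large. Let `X` be a number
with `b ^ k (log X) ^ (C + 6) ≤ X ≤ b ^ k (log X) ^ W`. Let `T` be an arbitrary transducer which reads digits `< a` and writes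
digits `< b` (with finitely or infinitely many states) such that from every state two words of `L` digits lead to the same
state, while different words are written; let it begin in an arbitrary state `s` and read from the left or from the right,
and let `c` be an arbitrary integer with `|c| ≤ B b ^ k` (`k` must be large in terms of the fixed numbers only). Then all
the `v < a ^ k`, with at most `a ^ k / k ^ U` exceptions, have the following property: if `D = c + κ T(v)` is positive, then
for all even `d` with `D ≤ d ≤ D + (log X) ^ A₁`, all `x ≤ X`, all `q ≤ (log X) ^ A₂` and all `r` with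
`(r, q) = (r + d, q) = 1`, `|π_d(x; r, q) - M_d(x; q)| ≤ X / (log X) ^ C`. -/
theorem result (a b L : ℕ) (hb : 2 ≤ b) (hL : 1 ≤ L) (κ : ℤ) (hκ : κ ≠ 0) (B A₁ A₂ C U W : ℕ) :
    ∃ k₀ : ℕ, ∀ k : ℕ, k₀ ≤ k →
      ∀ X : ℕ, b ^ k ≤ X → (b : ℝ) ^ k * Real.log X ^ (C + 6) ≤ X → (X : ℝ) ≤ (b : ℝ) ^ k * Real.log X ^ W →
      ∀ (S : Type) (δ : S → ℕ → S) (o : S → ℕ → ℕ), Transducer a b L δ o →
      ∀ (left : Bool) (s : S) (c : ℤ), |c| ≤ B * (b : ℤ) ^ k →
      (((range (a ^ k)).filter fun v => ¬ (0 < c + κ * (image a b δ o left k s v : ℕ) →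
        Holds A₁ A₂ C X (c + κ * (image a b δ o left k s v : ℕ)).toNat)).card : ℝ) ≤ (a : ℝ) ^ k / (k : ℝ) ^ U := by
  obtain ⟨k₀, h0⟩ := Pool.Agent.N625.DY.cls_pairs (tr_clsV a b L hb hL κ hκ) B U A₁ A₂ C W
  refine ⟨k₀, fun k hk X hX0 hX1 hX2 S δ o hT left s c hc => ?_⟩
  refine exceptions hb hT left k s (fun v => (0 < c + κ * (v : ℕ) →
    Holds A₁ A₂ C X (c + κ * (v : ℕ)).toNat)) U ?_
  refine h0 k hk X hX0 hX1 hX2 _ ⟨S, δ, o, left, s, hT, rfl⟩ c hc (fun y => (0 < y → Holds A₁ A₂ C X y.toNat)) (fun y hy => by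
      push Not at hy
      exact ⟨hy.1, fun hG => hy.2 (holds_of _ _ _ _ _ hG)⟩)

end Pool.Agent.Results.MP_92ef0c_nt.TransducerDifferences
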