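import Pool.Agent.Run7.h844.RP.K.K92ef0c

/-!
# Prime pairs in arithmetic progressions for all the differences near the values of generalised polynomials at primes

Definition used (in `Pool.Agent.H560R3.GB`): `C₂`: the twin prime constant `∏_{p > 2} (1 - 1 / (p - 1) ^ 2)` (the infimum
of the partial products).

Method: exponential sums over primes with the phase of a generalised polynomial: derivative bounds uniform in the
coefficients, van der Corput differencing of all orders, bilinear sums, Vaughan's identity (after `Pool.Agent.H895R3.NK`,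
`Pool.Agent.H373R2.T7`); a discrete Fejér kernel for the passage from real numbers to their integer parts, and a kernel
estimate for the concentration on short intervals which needs only the large frequencies (library
`Pool.Agent.Run7.h844.RP`, after `Pool.Agent.N384.MQ`, `Pool.Agent.N193.PS`). The passage from such exponential sums to prime
pairs is from the starting files (`Pool.Agent.TH872.Mir.dd_law`, `Pool.Agent.W93.PP`, `Pool.Agent.N625.DY.cls_pairs`).
-/

set_option autoImplicit false

namespace Pool.Agent.Results.MP_92ef0c_nt.ValuesAtPrimes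

open Finset Pool.Agent.H560R3.GB

/-- The generalised polynomial `∑ a x * t ^ x`, `x ∈ F`, with real exponents and coefficients. -/
noncomputable def genPoly (F : Finset ℝ) (a : ℝ → ℝ) (t : ℝ) : ℝ := ∑ x ∈ F, a x * t ^ x

/-- `c` is the largest exponent; it is positive and not an integer, and its coefficient is not zero. -/
def Leading (F : Finset ℝ) (a : ℝ → ℝ) (c : ℝ) : Prop :=
  c ∈ F ∧ (∀ x ∈ F, x ≤ c) ∧ 0 < c ∧ (∀ m : ℕ, c ≠ m) ∧ a c ≠ 0

open Classical in
/-- `π_d(x; a, q)`: the number of primes `p ≤ x` with `p + d ≤ x` prime and `p ≡ a (mod q)`. (For even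
`d > 0` such a prime `p` is automatically odd.) -/
noncomputable def pairs (d : ℕ) (x : ℝ) (a q : ℕ) : ℕ :=
  ((range (⌊x⌋₊ + 1)).filter (fun p => p.Prime ∧ (p + d).Prime ∧ (p : ℝ) + d ≤ x ∧ p ≡ a [MOD q])).card

/-- The main term `M_d(x; q)` of the problem. -/
noncomputable def main (d : ℕ) (x : ℝ) (q : ℕ) : ℝ :=
  2 / (((range q).filter (fun α => Nat.Coprime α q ∧ Nat.Coprime (α + d) q)).card : ℝ) *
    (∏ p ∈ d.primeFactors.filter (fun p => 2 < p), ((p : ℝ) - 1) / ((p : ℝ) - 2)) * C₂ *
    ∫ t in (2 : ℝ)..x, 1 / Real.log t ^ 2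

/-- The estimate of the problem for the difference `d` with the bound `X / (log X) ^ C`, for all `x ≤ X`, all moduli
`q ≤ (log X) ^ A` and all admissible classes `a`. -/
def HoldsAt (A C X d : ℕ) : Prop :=
  ∀ q a : ℕ, 1 ≤ q → (q : ℝ) ≤ Real.log X ^ A → Nat.Coprime a q → Nat.Coprime (a + d) q → ∀ x : ℝ, 2 ≤ x → x ≤ X →
    |(pairs d x a q : ℝ) - main d x q| ≤ X / Real.log X ^ C

/-- `HoldsAt` for all the even integers `d > 0` at a distance of at most `R` from the real number `y`. -/
def Near (A C X : ℕ) (R y : ℝ) : Prop := ∀ d : ℕ, 0 < d → |(d : ℝ) - y| ≤ R → Even d → HoldsAt A C X d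

open Classical in
/-- Let `f` be a generalised polynomial whose largest exponent `c` is positive and not an integer, and let `A`, `C`, `E`, `W`,
`U` be fixed. If `X` is large, `X ^ c (log Z) ^ (C + 12) ≤ Z ≤ X ^ c (log Z) ^ W`, and `z` is any real number with
`|z| ≤ X ^ c`, then all the primes `X < p ≤ 2 X`, with at most `X / log ^ U X` exceptions, have the following property: for ALL
the even integers `d > 0` at a distance of at most `log ^ E X` from `f(p) + z`, all `x ≤ Z`, all `q ≤ (log Z) ^ A` and all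
`α` with `(α, q) = (α + d, q) = 1`, `|π_d(x; α, q) - M_d(x; q)| ≤ Z / (log Z) ^ C` (the estimate of the problem). -/
theorem result (F : Finset ℝ) (a : ℝ → ℝ) (c : ℝ) (hF : Leading F a c) (A C E W U : ℕ) :
    ∃ X₀ : ℕ, ∀ X : ℕ, X₀ ≤ X → ∀ Z : ℕ, (X : ℝ) ^ c ≤ Z → (X : ℝ) ^ c * Real.log Z ^ (C + 12) ≤ Z →
      (Z : ℝ) ≤ (X : ℝ) ^ c * Real.log Z ^ W → ∀ z : ℝ, |z| ≤ (X : ℝ) ^ c →
      (((Ioc X (2 * X)).filter fun p : ℕ => p.Prime ∧ ¬ Near A C Z (Real.log X ^ E) (genPoly F a p + z)).card : ℝ) ≤
        X / Real.log X ^ U :=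
  Pool.Agent.Run7.h844.RP.K92ef0c.keyP F c hF.1 hF.2.2.2.1 hF.2.2.1 hF.2.1 a hF.2.2.2.2 A C E W U

end Pool.Agent.Results.MP_92ef0c_nt.ValuesAtPrimes
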